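import Pool.Agent.Lib.MP_177a0e_gt.TangleJoin
import Pool.Agent.Lib.MP_177a0e_gt.Sig.Bnd
import Pool.Agent.Lib.MP_177a0e_gt.Sig.SumA

/-!
# The ribbon genus is the least value of genus + min (maxima, minima - 1)

The ribbon genus of a knot `K` is the least value of `g + min (m, n - 1)` over all surfaces in the
4-ball with boundary `K`; `g` is the genus, `m` the number of local maxima and `n` the number of local
minima of the radial function.
-/

namespace Pool.Agent.Results.MP_177a0e_gt.CobordismExtrema

open Pool.Agent.Lib.MP_177a0e_gt.Tangle Pool.Agent.Lib.MP_177a0e_gt.Sig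

/-- `K` bounds a connected surface of genus `g` in the 4-ball on which the radial function has `m`
local maxima and `n` local minima: going inwards from `K`, a movie with `m` births, `n - 1` deaths and
`m + (n - 1) + 2 g` saddles, in any order, leads to the trivial knot, which is capped off by a disk
(the last minimum). -/
def Surface (K : Word) (g m n : ℕ) : Prop :=
  ∃ d : ℕ, n = d + 1 ∧ Cob [true] [true] m (m + d + 2 * g) d K []

/-- The ribbon genus of `K # -L`. -/
noncomputable def ribbonDist (K L : Knot) : ℕ := ribbonGenus (csum K.1 (adj L.1))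

/-- A cobordism from `L` to `J` changes the ribbon genus of `K # -J` by at most its genus and its
number of maxima. -/
lemma ribbonDist_maxima (K : Knot) {L J : Knot} {g m n : ℕ} (h : Joined L.1 J.1 g m n) :
    ribbonDist K L ≤ ribbonDist K J + g + m := by
  obtain ⟨d, h2⟩ := boundsRibbon_ribbonGenus (K.csum J.mirror)
  have h1 := (Cob.adj h).ctx K.2.valid valid_nil
  simp only [List.append_nil] at h1
  refine Nat.sInf_le ⟨n + d, ?_⟩
  have e : (K.csum J.mirror).1 = K.1 ++ adj J.1 := rfl
  have e' : ribbonGenus (K.csum J.mirror).1 = ribbonDist K J := rfl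
  rw [e'] at h2
  rw [e] at h2
  exact (Cob.trans h1 h2).trade.cast rfl (by omega) rfl

/-- Cobordisms between two knots. Let `L` and `J` be knots, joined by a cobordism of genus `g` with `m`
local maxima and `n` local minima (the height increases from `J` to `L`), and `K` any knot. Then

* the ribbon genus of `L # -J` is at most `g + min m n`;
* the ribbon genus of `K # -L` is at most that of `K # -J` plus `g` plus the smaller one of the
  numbers `m` and `n + b (J) - 1` (`b` is the bridge number).

Conversely `L` and `J` are joined by a cobordism whose genus is the ribbon genus of `L # -J` and whose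
number of local maxima is `b (J) - 1`. -/
theorem cobordism (K L J : Knot) :
    (∀ g m n : ℕ, Joined L.1 J.1 g m n →
      ribbonDist L J ≤ g + min m n ∧
      ribbonDist K L ≤ ribbonDist K J + g + min m (n + (bridge J.1 - 1))) ∧
    ∃ n : ℕ, Joined L.1 J.1 (ribbonDist L J) (bridge J.1 - 1) n := by
  refine ⟨fun g m n h => ⟨h.mirror, ?_⟩, joined_of_mirror L J⟩
  have h1 := ribbonDist_maxima K h
  have h2 : ribbonDist K L + 1 ≤ ribbonDist K J + ribbonDist J L + bridge J.1 :=
    triangle_bridge K J L
  have h3 : ribbonDist J L ≤ g + min m n := by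
    have e : ribbonDist J L = ribbonDist L J := ribbonGenus_csum_adj_comm J L
    rw [e]
    exact h.mirror
  have h4 := one_le_bridge J
  rcases le_total m (n + (bridge J.1 - 1)) with hmn | hmn
  · rw [min_eq_left hmn]; exact h1
  · rw [min_eq_right hmn]
    have h5 : min m n ≤ n := min_le_right _ _
    omega

lemma ribbonDist_triv (K : Knot) : ribbonDist K Knot.triv = ribbonGenus K.1 := by
  unfold ribbonDist
  rw [csum_triv]

/-- If `K # -J` is a ribbon knot then `K` and `J` have the same signature. -/
lemma signature_eq {K J : Knot} (h : ribbonGenus (csum K.1 (adj J.1)) = 0) :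
    signature K.1 = signature J.1 := by
  have key : ∀ L : Knot, ribbonGenus (csum L.1 (adj J.1)) = 0 →
      signature L.1 + signature (adj J.1) = 0 := by
    intro L hL
    have h1 := boundsRibbon_ribbonGenus (L.csum J.mirror)
    have e : ribbonGenus (L.csum J.mirror).1 = 0 := hL
    rw [e] at h1
    have h2 := ribbon_bd (L.csum J.mirror).2 h1
    have h3 : signature (L.csum J.mirror).1 = signature L.1 + signature (adj J.1) :=
      sig_append L.2.valid J.2.adj.valid
    rw [h3] at h2
    have h4 : |signature L.1 + signature (adj J.1)| ≤ 0 := by simpa using h2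
    exact abs_nonpos_iff.mp h4
  have h1 := key K h
  have h2 := key J (ribbonGenus_mirror J)
  linarith

/-- Let `K` be a knot.

* Its ribbon genus is the least value of `g + min m (n - 1)` over all surfaces in the 4-ball bounded by
  `K`, of genus `g`, with `m` local maxima and `n` local minima.
* So the ribbon genus and the slice genus of `K` are equal if and only if `K` bounds a surface whose
  genus is the slice genus, without local maxima or with just one local minimum.

For all knots `J`:

* if `J` bounds a surface of genus `g` with `m` local maxima and `n` local minima then the ribbon genus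
  of `K` is at most that of `K # -J` plus `g` plus the smaller one of the numbers `n - 1` and
  `m + b (J) - 1` (`b` is the bridge number);
* so the ribbon genus and the slice genus of `K` are equal if `K # -J` is a ribbon knot and `J` bounds a
  surface with one local minimum whose genus is the slice genus of `J` (for `J = K` this is one half of
  the criterion above). -/
theorem result (K : Knot) :
    IsLeast {r : ℕ | ∃ g m n : ℕ, Surface K.1 g m n ∧ r = g + min m (n - 1)} (ribbonGenus K.1) ∧
    (ribbonGenus K.1 = sliceGenus K.1 ↔
      ∃ m n : ℕ, Surface K.1 (sliceGenus K.1) m n ∧ (m = 0 ∨ n = 1)) ∧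
    ∀ J : Knot,
      (∀ g m n : ℕ, Surface J.1 g m n → ribbonGenus K.1 ≤
        ribbonGenus (csum K.1 (adj J.1)) + g + min (n - 1) (m + (bridge J.1 - 1))) ∧
      ∀ m : ℕ, ribbonGenus (csum K.1 (adj J.1)) = 0 → Surface J.1 (sliceGenus J.1) m 1 →
        ribbonGenus K.1 = sliceGenus K.1 := by
  have hle : ∀ g m n : ℕ, Surface K.1 g m n → ribbonGenus K.1 ≤ g + min m (n - 1) := by
    rintro g m n ⟨d, rfl, h⟩
    have h1 := ((cobordism K K Knot.triv).1 g m d h).1
    rwa [ribbonDist_triv] at h1
  obtain ⟨d, hd⟩ := boundsRibbon_ribbonGenus K
  have hmem : Surface K.1 (ribbonGenus K.1) 0 (d + 1) := ⟨d, rfl, hd.cast rfl (by omega) rfl⟩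
  have h5 := sliceGenus_le_ribbonGenus K
  refine ⟨⟨⟨_, 0, d + 1, hmem, by simp⟩, ?_⟩, ⟨fun h => ?_, ?_⟩, fun J => ?_⟩
  · rintro r ⟨g, m, n, h, rfl⟩
    exact hle g m n h
  · rw [← h]
    exact ⟨0, d + 1, hmem, Or.inl rfl⟩
  · rintro ⟨m, n, h, h1⟩
    have h2 := hle _ _ _ h
    rcases h1 with rfl | rfl
    · rw [Nat.zero_min] at h2
      omega
    · rw [Nat.sub_self, Nat.min_zero] at h2
      omega
  have hJ : ∀ g m n : ℕ, Surface J.1 g m n → ribbonGenus K.1 ≤
      ribbonGenus (csum K.1 (adj J.1)) + g + min (n - 1) (m + (bridge J.1 - 1)) := by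
    rintro g m n ⟨d, rfl, h⟩
    have h1 : Joined J.1 Knot.triv.1 g m d := h
    have h2 := ((cobordism K Knot.triv J).1 g d m h1.symm).2
    rw [ribbonDist_triv] at h2
    exact h2
  refine ⟨hJ, fun m h0 h => ?_⟩
  have h1 := hJ _ m 1 h
  rw [Nat.sub_self, Nat.zero_min, h0] at h1
  have h4 := (concordant_of_mirror h0).sliceGenus_eq
  omega

/-- If `K # -J` is a ribbon knot and `J` bounds a surface with one local minimum whose genus is half the
absolute value of the signature of `J`, then the ribbon genus and the slice genus of `K` are half the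
absolute value of the signature of `K`. -/
theorem half_signature (K J : Knot) (h0 : ribbonGenus (csum K.1 (adj J.1)) = 0) {g m : ℕ}
    (h : Surface J.1 g m 1) (hg : 2 * (g : ℤ) = |signature J.1|) :
    2 * (ribbonGenus K.1 : ℤ) = |signature K.1| ∧ 2 * (sliceGenus K.1 : ℤ) = |signature K.1| := by
  have h1 := ((result K).2.2 J).1 g m 1 h
  rw [Nat.sub_self, Nat.zero_min, h0] at h1
  have h5 := sliceGenus_le_ribbonGenus K
  have h2 := slice_bd K
  rw [← signature_eq h0] at hg
  constructor
  · apply le_antisymm
    · rw [← hg]
      exact_mod_cast (by omega : 2 * ribbonGenus K.1 ≤ 2 * g)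
    · refine h2.trans ?_
      exact_mod_cast (by omega : 2 * sliceGenus K.1 ≤ 2 * ribbonGenus K.1)
  · apply le_antisymm _ h2
    rw [← hg]
    exact_mod_cast (by omega : 2 * sliceGenus K.1 ≤ 2 * g)

/-- A counterexample to the equality of the two genera has at least one local maximum and at least two
local minima on every surface whose genus is smaller than the ribbon genus. -/
theorem extrema_of_lt (K : Knot) {g m n : ℕ} (h : Surface K.1 g m n) (hg : g < ribbonGenus K.1) :
    ribbonGenus K.1 - g ≤ m ∧ ribbonGenus K.1 - g + 1 ≤ n := by
  have h1 := (result K).1.2 ⟨g, m, n, h, rfl⟩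
  have h2 : min m (n - 1) ≤ m := min_le_left _ _
  have h3 : min m (n - 1) ≤ n - 1 := min_le_right _ _
  omega

/-- Surfaces of connected sums. -/
theorem surface_csum {K J : Knot} {g m n g' m' n' : ℕ} (h : Surface K.1 g m n)
    (h' : Surface J.1 g' m' n') :
    Surface (csum K.1 J.1) (g + g') (m + m') (n + n' - 1) := by
  obtain ⟨d, rfl, h⟩ := h
  obtain ⟨d', rfl, h'⟩ := h'
  have h1 := h.ctx (u := []) (v := J.1) valid_nil J.2.valid
  simp only [List.nil_append] at h1
  exact ⟨d + d', by omega, (h1.trans h').cast rfl (by omega) rfl⟩

/-- `u` crossing changes which turn `J` into the trivial knot give a surface of genus `u` with one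
minimum. -/
theorem surface_unknotting (J : Knot) : Surface J.1 (unknotting J.1) 0 1 :=
  ⟨0, rfl, (unknots_unknotting J).cob.cast rfl (by omega) rfl⟩

/-- The knots which bound a surface with one local minimum and of genus half the signature are closed
under connected sums; the equality of the two genera holds for all `K` such that `K # -J` is a ribbon
knot for such a `J`. -/
theorem half_signature_csum {K J : Knot} {g m g' m' : ℕ} (h : Surface K.1 g m 1)
    (h' : Surface J.1 g' m' 1) (hg : 2 * (g : ℤ) = signature K.1)
    (hg' : 2 * (g' : ℤ) = signature J.1) :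
    Surface (csum K.1 J.1) (g + g') (m + m') 1 ∧
      2 * ((g + g' : ℕ) : ℤ) = signature (csum K.1 J.1) := by
  refine ⟨surface_csum h h', ?_⟩
  have h3 : signature (csum K.1 J.1) = signature K.1 + signature J.1 :=
    sig_append K.2.valid J.2.valid
  rw [h3]
  push_cast
  linarith

/-- If `K` is concordant to a knot `J` then `2 g` saddles turn `K` into a slice knot, where `g` is the
least genus of a surface with boundary `J` and with one local minimum. -/
theorem saddles (K J : Knot) (h : Concordant K J) :
    ∃ S : Knot, sliceGenus S.1 = 0 ∧ Cob [true] [true] 0 (2 * oneMinGenus J.1) 0 K.1 S.1 :=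
  saddles_first h

end Pool.Agent.Results.MP_177a0e_gt.CobordismExtrema
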