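import Pool.Agent.Lib.MP_177a0e_gt.LT.GG

/-!
# Ribbon genus and slice genus of the knots along which a signature drops as much as possible

`Drop F g K L`: there is a movie without births of genus `g` from the knot `K` to the knot `L`, and the
invariant `F` drops by `4 g`; `F` is `± 2` times the signature or `± ksig c`, that is, up to sign, twice a
Levine–Tristram signature.

`tk m`: the torus knot `T(2, m)`. For a diagram `w`: a crossing is of the right type if its type is `true` and the
number of strands on its left is even or its type is `false` and this number is odd; `posr w` is the number of the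
positive crossings of the right type; `bw w` is the form of the even regions (those with an even number of strands on
their left), that is, the sum over the crossings of the squares of the differences of the values of the two even regions
at the crossing, with the sign `+` if the crossing is of the right type and `-` if it is not, and `ngi w` is the negative
index of this form. `Alternating e w`: all crossings of `w` are of the right type (`e = true`) or none is (`e = false`).
`AltPair`: see there.
-/

namespace Pool.Agent.Results.MP_177a0e_gt.SignatureDescent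

open Pool.Agent.Lib.MP_177a0e_gt.Tangle Pool.Agent.Lib.MP_177a0e_gt.Sig Pool.Agent.Lib.MP_177a0e_gt.LT
open Pool.Agent.Lib.MP_177a0e_gt.Des (Desc AltPair Alternating)

/-- Let `F` be, up to sign, twice a Levine–Tristram signature. If there is a movie without births of genus `g`
from the knot `K` to the knot `L` along which `F` drops by `4 g` (the most possible) then

* the ribbon genus and the slice genus of `K # J` are `g` for every `J` such that `L # J` is ribbon, in particular
  for `J = -L`, and for the trivial knot `J` (the empty word) if `L` is ribbon;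
* the slice genus of `K # J` is `g` if `L # J` is slice;
* this holds for both parts of the movie, for every knot in the middle of it.

The relation is closed under composition and connected sum, and the ribbon genus and the slice genus are
additive on the knots which descend in this way to ribbon knots (for the same `F`).

Examples, for `F` twice the signature: alternating pairs; and the following. Let `w` be any diagram of `K`. Then
`T(2, m)` becomes `K` by `m - 1 - signature K + 2 ngi w` saddles, for every odd `m ≥ posr w`; therefore, if `K # J` is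
ribbon, the ribbon genus of `T(2, m) # J` is at most its slice genus plus `ngi w`, the ribbon genus of `J` is at most
its slice genus plus `ngi w + 2 ⌊posr w / 2⌋`, and if `ngi w = 0` then `T(2, m)` descends to `K`. In the same way
`K` descends to `-T(2, n)`, from a diagram of the mirror image of `K`. Every alternating knot, and every connected sum
of alternating knots, lies between `T(2, m)` and `-T(2, n)` for all odd `m` and `n` which are at least the numbers of
its positive and its negative crossings. If it has at most one positive crossing and `K # J` is ribbon, then the ribbon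
genus and the slice genus of `J` are `-signature K / 2`. -/
theorem result :
    (∀ K : Knot, ribbonGenus (csum K.1 (adj K.1)) = 0) ∧
    (∀ F : Word → ℤ, Sgn F →
      (∀ (g : ℕ) (K L J : Knot), Drop F g K L →
        (ribbonGenus (csum L.1 J.1) = 0 → ribbonGenus (csum K.1 J.1) = g ∧ sliceGenus (csum K.1 J.1) = g) ∧
        (sliceGenus (csum L.1 J.1) = 0 → sliceGenus (csum K.1 J.1) = g)) ∧
      (∀ (g h d e : ℕ) (T K L : Knot), Cob [true] [true] 0 (d + 2 * g) d T.1 K.1 →
        Cob [true] [true] 0 (e + 2 * h) e K.1 L.1 → F T.1 = F L.1 + 4 * (g + h : ℕ) →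
        Drop F g T K ∧ Drop F h K L) ∧
      (∀ (g h : ℕ) (K L M : Knot), Drop F g K L → Drop F h L M → Drop F (g + h) K M) ∧
      (∀ (g : ℕ) (K L J : Knot), Drop F g K L → Drop F g (K.csum J) (L.csum J) ∧ Drop F g (J.csum K) (J.csum L)) ∧
      (∀ (g g' : ℕ) (K K' L L' : Knot), Drop F g K L → Drop F g' K' L' → ribbonGenus L.1 = 0 →
        ribbonGenus L'.1 = 0 →
        ribbonGenus (csum K.1 K'.1) = g + g' ∧ sliceGenus (csum K.1 K'.1) = g + g')) ∧
    (∀ (g : ℕ) (K L : Knot), AltPair g K.1 L.1 → Drop (fun w => 2 * signature w) g K L) ∧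
    (∀ (m : ℕ) (T K w : Knot), m % 2 = 1 → T.1 = tk m → Cob [true] [true] 0 0 0 K.1 w.1 → posr w.1 ≤ m →
      ∃ g : ℕ, 2 * g + signature K.1 + 1 = m + 2 * ngi w.1 ∧ Cob [true] [true] 0 (2 * g) 0 T.1 K.1 ∧
        (∀ J : Knot, ribbonGenus (csum K.1 J.1) = 0 →
          ribbonGenus (csum T.1 J.1) ≤ g ∧ g ≤ sliceGenus (csum T.1 J.1) + ngi w.1) ∧
        (ngi w.1 = 0 → Drop (fun w => 2 * signature w) g T K)) ∧
    (∀ (n : ℕ) (K L w : Knot), n % 2 = 1 → L.1 = adj (tk n) → Cob [true] [true] 0 0 0 (adj K.1) w.1 → posr w.1 ≤ n →
      ∃ h : ℕ, 2 * h + 1 = n + signature K.1 + 2 * ngi w.1 ∧ Cob [true] [true] 0 (2 * h) 0 K.1 L.1 ∧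
        (∀ J : Knot, ribbonGenus (csum L.1 J.1) = 0 →
          ribbonGenus (csum K.1 J.1) ≤ h ∧ h ≤ sliceGenus (csum K.1 J.1) + ngi w.1) ∧
        (ngi w.1 = 0 → Drop (fun w => 2 * signature w) h K L)) ∧
    (∀ J K w : Knot, Cob [true] [true] 0 0 0 K.1 w.1 → ribbonGenus (csum K.1 J.1) = 0 →
      ∃ g : ℕ, 2 * g + signature K.1 = 2 * ngi w.1 + 4 * (posr w.1 / 2 : ℕ) ∧ ribbonGenus J.1 ≤ g ∧
        g ≤ sliceGenus J.1 + ngi w.1 + 2 * (posr w.1 / 2)) ∧
    ∀ (D : List Word) (K : Knot), (∀ w ∈ D, IsKnot w ∧ ∃ e : Bool, Alternating e w) → K.1 = D.flatten →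
      (∀ (T L : Knot) (m n : ℕ), m % 2 = 1 → n % 2 = 1 → npos K.1 ≤ m → nneg K.1 ≤ n → T.1 = tk m →
        L.1 = adj (tk n) → ∃ g h : ℕ, 2 * g + signature K.1 + 1 = m ∧ 2 * h + 1 = n + signature K.1 ∧
          Drop (fun w => 2 * signature w) g T K ∧ Drop (fun w => 2 * signature w) h K L) ∧
      ∀ J : Knot, npos K.1 ≤ 1 → ribbonGenus (csum K.1 J.1) = 0 →
        ∃ g : ℕ, 2 * g + signature K.1 = 0 ∧ ribbonGenus J.1 = g ∧ sliceGenus J.1 = g := by
  refine ⟨ribbon_diff, fun F hF => ⟨fun g K L J h => drop_sum hF J h,
    fun g h d e T K L h1 h2 h3 => drop_middle hF h1 h2 h3, fun g h K L M h1 h2 => h1.trans h2,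
    fun g K L J h => ⟨h.right hF J, h.left hF J⟩, fun g g' K K' L L' h h' hL hL' => ?_⟩,
    fun g K L h => desc_drop (Desc.alternating h),
    fun m T K w hm hT h hn => ind_above h hn hm hT, fun n K L w hn hL h h' => ind_below h h' hn hL,
    fun J K w h hJ => ind_triv h hJ,
    fun D K hD hK => ⟨fun T L m n hm hn h1 h2 hT hL => alternating_sums D T K L m n hD hK hm hn h1 h2 hT hL,
      fun J h1 hJ => alt_triv D J K hD hK h1 hJ⟩⟩
  have h1 : Drop F (g + g') (K.csum K') (L.csum L') := (h.right hF K').trans (h'.left hF L)
  have h2 : BoundsRibbon (L.csum L').1 0 := by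
    obtain ⟨d, e⟩ := boundsRibbon_ribbonGenus L
    obtain ⟨d', e'⟩ := boundsRibbon_ribbonGenus L'
    rw [hL] at e
    rw [hL'] at e'
    exact ⟨d + d', ((e.ctx (u := []) valid_nil L'.2.valid).trans e').cast rfl (by ring) rfl⟩
  exact drop_ribbon hF h1 (Nat.le_zero.1 (Nat.sInf_le h2))

end Pool.Agent.Results.MP_177a0e_gt.SignatureDescent
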