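import Pool.Agent.Lib.MP_177a0e_gt.LT.XZ

/-!
# Ribbon genus and slice genus of the connected sums of two-strand torus knots

`tk n` is the torus knot `T(2, n)`, `tsum l` the connected sum of the `T(2, n)`, `n` in the list `l`,
`adj` the mirror image, `fl n θ = ⌊n θ + 1 / 2⌋`, which is half of the absolute value of the Levine–Tristram
signature of `T(2, n)` at `exp (2 π i θ)`, and `fsum l θ` the sum of the `fl n θ`, `n` in `l`.
-/

namespace Pool.Agent.Results.MP_177a0e_gt.TorusKnotSums

open Pool.Agent.Lib.MP_177a0e_gt.Tangle Pool.Agent.Lib.MP_177a0e_gt.LT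

/-- Let `K = T(2, p₁) # … # T(2, p_k) # -(T(2, q₁) # … # T(2, q_l))` be any connected sum of two-strand torus
knots and their mirror images (all `p_i`, `q_j` odd; `P` and `M` are the lists of the `p_i` and of the `q_j`).
Let `A`, `B` be the lists which remain from `P`, `M` after all pairs `T(2, n)`, `-T(2, n)` have been cancelled
and all trivial summands `T(2, 1)` have been dropped, and let `N = |A| + |B| + |∑ A - ∑ B|`, the number of
the remaining summands plus the absolute value of the difference of the sums of the two lists. Then: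

1. `2 g_r(K) ≤ max (N - 2) 0`;
2. `N ≤ (10 s + 12) g_4(K)` if `A` or `B` contains only `s` different numbers;
3. `N ≤ 2400 g_4(K) ^ 2 (1 + log g_4(K)) ^ 2`; in particular `K` has only boundedly many summands which do not
   cancel, and ribbon genus at most `1200 g_4(K) ^ 2 (1 + log g_4(K)) ^ 2`;
4. if `∑ B ≤ ∑ A` and `A` is not empty then `g_r(K) ≤ g_4(K) + |A| - 1`, and the same with `A`, `B` exchanged;
5. the ribbon genus of `K` is the slice genus of `K`, and this is the largest absolute value of
   `∑ ⌊p_i θ + 1 / 2⌋ - ∑ ⌊q_j θ + 1 / 2⌋` for `0 ≤ θ < 1 / 2`, in the following cases: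
   * there are at most three numbers in `A` and `B`;
   * all numbers in `A` are equal and all numbers in `B` are equal;
   * all numbers in `A`, or all numbers in `B`, are equal to one of `3`, `5`, `7` (for instance if one of the
     lists is empty);
   * all numbers in `A` and `B` are at most `7` (for instance for all sums of the knots `T(2, 3)`, `T(2, 5)`,
     `T(2, 7)` and their mirror images);
   * the numbers in `B` can be distributed over the numbers in `A` so that every `a` in `A` gets numbers with
     sum at most `a`, or the same with `A`, `B` exchanged;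
   * `A` contains disjoint parts, one for each number `b` in `B`, with sum at least `b` and less than
     `1 + b / max A` entries, or the same with `A`, `B` exchanged;
6. the knots `T(2, n) # K` have equal ribbon genus and slice genus if `n` is odd and at least the sum of the
   numbers in `B`, and the knots `K # -T(2, n)` if `n` is odd and at least the sum of the numbers in `A`. -/
theorem result (P M : List ℕ) (hP : ∀ n ∈ P, n % 2 = 1) (hM : ∀ n ∈ M, n % 2 = 1) (K : Word)
    (hK : K = csum (tsum P) (adj (tsum M))) :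
    ∃ (A B C : List ℕ) (i j : ℕ), P.Perm (A ++ (C ++ List.replicate i 1)) ∧
      M.Perm (B ++ (C ++ List.replicate j 1)) ∧ (∀ n ∈ A, n ≠ 1 ∧ n ∉ B) ∧ (∀ n ∈ B, n ≠ 1) ∧
      2 * (ribbonGenus K : ℤ) ≤ max (A.length + B.length + |(A.sum : ℤ) - B.sum| - 2) 0 ∧
      (A.length : ℤ) + B.length + |(A.sum : ℤ) - B.sum| ≤
        (10 * min A.toFinset.card B.toFinset.card + 12 : ℕ) * sliceGenus K ∧
      (A.length : ℝ) + B.length + |(A.sum : ℝ) - B.sum| ≤
        2400 * (sliceGenus K : ℝ) ^ 2 * (1 + Real.log (sliceGenus K : ℝ)) ^ 2 ∧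
      (B.sum ≤ A.sum → ribbonGenus K ≤ sliceGenus K + (A.length - 1)) ∧
      (A.sum ≤ B.sum → ribbonGenus K ≤ sliceGenus K + (B.length - 1)) ∧
      ((A.length + B.length ≤ 3 ∨ (∃ p q : ℕ, (∀ n ∈ A, n = p) ∧ ∀ n ∈ B, n = q) ∨
          (∃ q : ℕ, (q = 3 ∨ q = 5 ∨ q = 7) ∧ ((∀ n ∈ A, n = q) ∨ ∀ n ∈ B, n = q)) ∨ (∀ n ∈ A ++ B, n ≤ 7) ∨
          Pack A B ∨ Pack B A ∨ Cover A B ∨ Cover B A) →
        ribbonGenus K = sliceGenus K ∧
        IsGreatest {n : ℤ | ∃ θ : ℝ, 0 ≤ θ ∧ θ < 1 / 2 ∧ n = |fsum P θ - fsum M θ|} (sliceGenus K)) ∧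
      ∀ n : ℕ, n % 2 = 1 →
        (B.sum ≤ n → ribbonGenus (csum (tk n) K) = sliceGenus (csum (tk n) K)) ∧
        (A.sum ≤ n → ribbonGenus (csum K (adj (tk n))) = sliceGenus (csum K (adj (tk n)))) := by
  subst hK
  exact all_sums P M hP hM

end Pool.Agent.Results.MP_177a0e_gt.TorusKnotSums
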