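import Pool.Agent.Lib.MP_177a0e_gt.Top

namespace Pool.Agent.Results.MP_177a0e_gt.TwoBandLowering

open Pool.Agent.Lib.MP_177a0e_gt

/-- The ribbon genera of the knots above a knot, and the band genus: let `bandGenus K` be the least `g` such that `2 g`
bands turn `K` into a slice knot.

* For every knot `K` the ribbon genera of the knots `X` from which there is a ribbon concordance to `K` are exactly the
  numbers `g_4(K), g_4(K) + 1, ..., g_r(K)`, and `g_4(X) = g_4(K)`.
* For every `g`: `g_r = g` for all knots of slice genus `g` if and only if no knot of slice genus `g` has ribbon genus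
  `g + 1`. So `g_r = g_4` for all knots if and only if `g_r = g_4 + 1` for no knot, and every slice knot is ribbon if
  and only if no slice knot has ribbon genus one.
* `g_r = g_4` for all knots (all knots of slice genus at most `N`) if and only if every slice knot is ribbon and every
  knot which is not slice (of slice genus at most `N`) can be turned by two bands into a knot of smaller slice genus.
* `g_4 ≤ bandGenus ≤ g_r` for every knot; `bandGenus = g_r` for all knots if and only if every slice knot is ribbon;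
  `bandGenus = g_4` for all knots if and only if every knot which is not slice can be turned by two bands into a knot of
  smaller slice genus, if and only if `bandGenus K ≤ bandGenus K'` whenever `K'` is ribbon concordant to `K`. -/
theorem result :
    (∀ (K : Knot) (i : ℕ), (sliceGenus K.1 ≤ i ∧ i ≤ ribbonGenus K.1) ↔
      ∃ X : Knot, RibbonConcordance X.1 K.1 ∧ sliceGenus X.1 = sliceGenus K.1 ∧ ribbonGenus X.1 = i) ∧
    (∀ g : ℕ, (∀ K : Knot, sliceGenus K.1 = g → ribbonGenus K.1 = g) ↔
      (∀ K : Knot, sliceGenus K.1 = g → ribbonGenus K.1 ≠ g + 1)) ∧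
    (∀ N : ℕ, (∀ K : Knot, sliceGenus K.1 ≤ N → ribbonGenus K.1 = sliceGenus K.1) ↔
      (∀ K : Knot, sliceGenus K.1 = 0 → ribbonGenus K.1 = 0) ∧
      (∀ K : Knot, sliceGenus K.1 ≤ N → sliceGenus K.1 ≠ 0 →
        ∃ K' : Knot, Bands 2 K.1 K'.1 ∧ sliceGenus K'.1 < sliceGenus K.1)) ∧
    List.TFAE [
      ∀ K : Knot, ribbonGenus K.1 = sliceGenus K.1,
      ∀ K : Knot, ribbonGenus K.1 ≠ sliceGenus K.1 + 1,
      (∀ K : Knot, sliceGenus K.1 = 0 → ribbonGenus K.1 = 0) ∧
      (∀ K : Knot, sliceGenus K.1 ≠ 0 →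
        ∃ K' : Knot, Bands 2 K.1 K'.1 ∧ sliceGenus K'.1 < sliceGenus K.1)] ∧
    (∀ K : Knot, sliceGenus K.1 ≤ bandGenus K.1 ∧ bandGenus K.1 ≤ ribbonGenus K.1) ∧
    ((∀ K : Knot, bandGenus K.1 = ribbonGenus K.1) ↔
      (∀ K : Knot, sliceGenus K.1 = 0 → ribbonGenus K.1 = 0)) ∧
    List.TFAE [
      ∀ K : Knot, bandGenus K.1 = sliceGenus K.1,
      ∀ K : Knot, sliceGenus K.1 ≠ 0 →
        ∃ K' : Knot, Bands 2 K.1 K'.1 ∧ sliceGenus K'.1 < sliceGenus K.1,
      ∀ K K' : Knot, RibbonConcordance K'.1 K.1 → bandGenus K.1 ≤ bandGenus K'.1] := by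
  have hSR : (∀ K : Knot, bandGenus K.1 = ribbonGenus K.1) ↔
      (∀ K : Knot, sliceGenus K.1 = 0 → ribbonGenus K.1 = 0) := by
    constructor
    · intro h K hK
      rw [← h K]
      exact Nat.le_zero.mp (bandGenus_le hK (g := 0) (Bands.refl K.2.1))
    · intro h K
      apply le_antisymm (bandGenus_le_ribbonGenus K)
      obtain ⟨J, h1, h2⟩ := bandGenus_spec K
      have := ribbonGenus_le_of_bands h2.symm
      rw [h J h1] at this
      omega
  -- lowering from equality
  have hlow : ∀ K : Knot, bandGenus K.1 = sliceGenus K.1 → sliceGenus K.1 ≠ 0 →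
      ∃ K' : Knot, Bands 2 K.1 K'.1 ∧ sliceGenus K'.1 < sliceGenus K.1 := by
    intro K h hK
    obtain ⟨J, h1, h2⟩ := bandGenus_spec K
    obtain ⟨g, hg⟩ : ∃ g, bandGenus K.1 = g + 1 := ⟨bandGenus K.1 - 1, by omega⟩
    rw [hg] at h2
    obtain ⟨L, h3, h4⟩ := interpolate h2
    refine ⟨L, h3, ?_⟩
    have := sliceGenus_le_of_bands h4.symm
    omega
  -- equality from lowering
  have hlow' : ∀ N : ℕ, (∀ K : Knot, sliceGenus K.1 ≤ N → sliceGenus K.1 ≠ 0 →
      ∃ K' : Knot, Bands 2 K.1 K'.1 ∧ sliceGenus K'.1 < sliceGenus K.1) →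
      ∀ g, g ≤ N → ∀ K : Knot, sliceGenus K.1 ≤ g → bandGenus K.1 ≤ sliceGenus K.1 := by
    intro N h g
    induction g with
    | zero =>
      intro _ K hK
      have h0 : sliceGenus K.1 = 0 := by omega
      have := bandGenus_le h0 (g := 0) (Bands.refl K.2.1)
      omega
    | succ g ih =>
      intro hg K hK
      by_cases h0 : sliceGenus K.1 = 0
      · exact (ih (by omega) K (by omega))
      · obtain ⟨K', h1, h2⟩ := h K (by omega) h0
        have h3 := ih (by omega) K' (by omega)
        obtain ⟨J, h4, h5⟩ := bandGenus_spec K'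
        have h6 : Bands (2 * (1 + bandGenus K'.1)) K.1 J.1 := by
          rw [mul_add]; exact h1.trans h5
        have := bandGenus_le h4 h6
        omega
  have hH : List.TFAE [
      ∀ K : Knot, bandGenus K.1 = sliceGenus K.1,
      ∀ K : Knot, sliceGenus K.1 ≠ 0 →
        ∃ K' : Knot, Bands 2 K.1 K'.1 ∧ sliceGenus K'.1 < sliceGenus K.1,
      ∀ K K' : Knot, RibbonConcordance K'.1 K.1 → bandGenus K.1 ≤ bandGenus K'.1] := by
    tfae_have 1 → 2 := fun h K hK => hlow K (h K) hK
    tfae_have 2 → 1 := by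
      intro h K
      exact le_antisymm (hlow' (sliceGenus K.1) (fun K _ => h K) _ le_rfl K le_rfl)
        (sliceGenus_le_bandGenus K)
    tfae_have 1 → 3 := by
      intro h K K' hK
      rw [h K]
      exact (sliceGenus_le_of_ribbonConcordance hK).trans (sliceGenus_le_bandGenus K')
    tfae_have 3 → 1 := by
      intro h K
      obtain ⟨K', h1, h2⟩ := (boundsSurface_iff K _).mp (slice_spec K)
      have h3 := h K K' h1
      have h4 := bandGenus_le_ribbonGenus K'
      have h5 := ribbonGenus_le h2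
      have h6 := sliceGenus_le_bandGenus K
      omega
    tfae_finish
  have hN : ∀ N : ℕ, (∀ K : Knot, sliceGenus K.1 ≤ N → ribbonGenus K.1 = sliceGenus K.1) ↔
      (∀ K : Knot, sliceGenus K.1 = 0 → ribbonGenus K.1 = 0) ∧
      (∀ K : Knot, sliceGenus K.1 ≤ N → sliceGenus K.1 ≠ 0 →
        ∃ K' : Knot, Bands 2 K.1 K'.1 ∧ sliceGenus K'.1 < sliceGenus K.1) := by
    intro N
    constructor
    · intro h
      refine ⟨fun K hK => by rw [h K (by omega), hK], fun K hK h0 => hlow K ?_ h0⟩
      have h1 := sliceGenus_le_bandGenus K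
      have h2 := bandGenus_le_ribbonGenus K
      have h3 := h K hK
      omega
    · rintro ⟨h1, h2⟩ K hK
      have h3 := hlow' N h2 N le_rfl K hK
      have h4 := hSR.mpr h1 K
      have h5 := sliceGenus_le_ribbonGenus K
      omega
  have hI : ∀ (K : Knot) (i : ℕ), (sliceGenus K.1 ≤ i ∧ i ≤ ribbonGenus K.1) ↔
      ∃ X : Knot, RibbonConcordance X.1 K.1 ∧ sliceGenus X.1 = sliceGenus K.1 ∧ ribbonGenus X.1 = i := by
    intro K i
    constructor
    · rintro ⟨h1, h2⟩
      obtain ⟨X, h3, h4⟩ := all_between K i h1 h2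
      exact ⟨X, h3, sliceGenus_top h3, h4⟩
    · rintro ⟨X, h1, -, rfl⟩
      exact ⟨slice_le_top h1, genus_top h1⟩
  have hG : ∀ g : ℕ, (∀ K : Knot, sliceGenus K.1 = g → ribbonGenus K.1 = g) ↔
      (∀ K : Knot, sliceGenus K.1 = g → ribbonGenus K.1 ≠ g + 1) := by
    intro g
    constructor
    · intro h K hK
      rw [h K hK]
      omega
    · intro h K hK
      have h1 := sliceGenus_le_ribbonGenus K
      by_contra h2
      obtain ⟨X, -, h3, h4⟩ := (hI K (g + 1)).1 ⟨by omega, by omega⟩
      exact h X (h3.trans hK) h4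
  refine ⟨hI, hG, hN, ?_, fun K => ⟨sliceGenus_le_bandGenus K, bandGenus_le_ribbonGenus K⟩, hSR, hH⟩
  tfae_have 1 ↔ 2 := by
    constructor
    · intro h K
      rw [h K]
      omega
    · intro h K
      exact (hG (sliceGenus K.1)).2 (fun X hX => by rw [← hX]; exact h X) K rfl
  tfae_have 1 ↔ 3 := by
    constructor
    · intro h
      refine ⟨((hN 0).mp fun K _ => h K).1, fun K h0 => ?_⟩
      exact ((hN (sliceGenus K.1)).mp fun K _ => h K).2 K le_rfl h0
    · rintro ⟨h1, h2⟩ K
      exact (hN (sliceGenus K.1)).mpr ⟨h1, fun K _ => h2 K⟩ K le_rfl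
  tfae_finish

end Pool.Agent.Results.MP_177a0e_gt.TwoBandLowering
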